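import Pool.Agent.Q287.NT.Stm

set_option autoImplicit false

open MeasureTheory
open scoped ENNReal

namespace Q179.NT

open Q287.NT

theorem t_BR (h1 : S_SCALE) (h2 : S_KEY) (h3 : S_STEP) (h4 : S_MEAS) : S_BR := by
  intro d x t hd hG
  obtain ⟨_, _, hR0, hR1, hvol⟩ := id hG
  set R := Rp x t with hR
  have hd1 : 128 ≤ d := hd.1
  have hd0 : (0 : ℝ) < d := by
    have : 0 < d := by omega
    exact_mod_cast this
  have hd128 : (128 : ℝ) ≤ d := by exact_mod_cast hd1
  set v : ℝ := V d (R / 4) with hv
  have hv0 : 0 < v := V_pos (by positivity)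
  have hv16 : v ≤ 1 / 16 := by
    have h5 : v ≤ V d (1 / 32 * (1 / 2)) := V_mono (by linarith)
    rw [h1 d (1 / 32) (1 / 2) (by norm_num) (by norm_num) (by norm_num) le_rfl] at h5
    have h6 : V d (1 / 2) ≤ 1 := V_le_one _
    have h7 : (0 : ℝ) ≤ V d (1 / 2) := V_nonneg _
    have h8 : ((1 : ℝ) / 32) ^ d ≤ 1 / 32 := by
      have := pow_le_pow_of_le_one (by norm_num : (0 : ℝ) ≤ 1 / 32) (by norm_num)
        (show 1 ≤ d by omega)
      simpa using this
    nlinarith
  -- the radii
  set q : ℕ → ℝ := fun k => (2 : ℝ) ^ (-(k : ℝ) / d) with hq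
  have hq0 : ∀ k, 0 < q k := fun k => by positivity
  have hqd : ∀ k, q k ^ d = (1 / 2) ^ k := by
    intro k
    rw [hq]
    simp only
    rw [← Real.rpow_natCast, ← Real.rpow_mul (by norm_num), div_mul_cancel₀ _ hd0.ne',
      Real.rpow_neg (by norm_num), Real.rpow_natCast, one_div, inv_pow]
  have hq1 : ∀ k, q k ≤ 1 := by
    intro k
    apply Real.rpow_le_one_of_one_le_of_nonpos (by norm_num)
    rw [neg_div]
    have : 0 ≤ (k : ℝ) / d := by positivity
    linarith
  have hq2 : ∀ k ≤ 128, 1 / 2 ≤ q k := by
    intro k hk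
    have h5 : (2 : ℝ) ^ (-1 : ℝ) ≤ q k := by
      apply Real.rpow_le_rpow_of_exponent_le (by norm_num)
      rw [neg_div, neg_le_neg_iff, div_le_one hd0]
      have : (k : ℝ) ≤ 128 := by exact_mod_cast hk
      linarith
    rw [Real.rpow_neg_one] at h5
    linarith
  set r : ℕ → ℝ := fun k => q k * (R / 4) with hr
  have hVr : ∀ k, V d (r k) = (1 / 2) ^ k * v := by
    intro k
    rw [hr]
    simp only
    rw [h1 d (q k) (R / 4) (hq0 k) (hq1 k) (by positivity) (by linarith), hqd]
  set f : ℕ → ℝ≥0∞ := fun l => PP d {y | Step (glue t x y) t (t + 1 + l)} with hf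
  have hterm : ∀ k < 128, ∀ l : ℕ, 1 / 8 ≤ ((l : ℝ) + 1) * V d (r k) →
      ((l : ℝ) + 1) * V d (r k) ≤ 1 / 4 → ENNReal.ofReal ((1 / 2) ^ k * v / 4) ≤ f l := by
    intro k hk l hl1 hl2
    have h5 := hq2 (k + 1) (by omega)
    have h6 := hq1 k
    have h7 : R / 8 ≤ r (k + 1) := by
      rw [hr]
      simp only
      nlinarith
    have h8 : r k ≤ R / 4 := by
      rw [hr]
      simp only
      nlinarith
    have h9 : 0 < r k := mul_pos (hq0 k) (by positivity)
    have h10 : 2 * r (k + 1) ^ d = r k ^ d := by
      rw [hr]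
      simp only
      rw [mul_pow, mul_pow, hqd, hqd, pow_succ]
      ring
    have hkey := h2 d (x t) (x (parent x t)) (Far x t) R (r (k + 1)) (r k) l hd ((h4 d).1 x t)
      hR0 hR1 rfl hvol h7 h8 h9 h10 hl1 hl2
    rw [hVr] at hkey
    refine hkey.trans (measure_mono fun y hy => ?_)
    exact h3 d x y t l (r (k + 1)) (r k) hG hy h7 h8 (by linarith)
  -- the windows
  set b : ℕ → ℕ := fun k => ⌊(2 : ℝ) ^ k / (8 * v)⌋₊ with hb
  have hbmono : ∀ k, b k ≤ b (k + 1) := by
    intro k
    apply Nat.floor_mono
    apply div_le_div_of_nonneg_right _ (by positivity)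
    rw [pow_succ]
    have : (0 : ℝ) < 2 ^ k := by positivity
    linarith
  have hind : ∀ K : ℕ, K ≤ 128 → ENNReal.ofReal (K / 64) ≤ ∑ l ∈ Finset.Ico (b 0) (b K), f l := by
    intro K
    induction K with
    | zero => simp
    | succ K ih =>
      intro hK
      have h5 := ih (by omega)
      have hmono : ∀ m, b 0 ≤ b m := by
        intro m
        induction m with
        | zero => exact le_rfl
        | succ m ihm => exact ihm.trans (hbmono m)
      rw [← Finset.sum_Ico_consecutive f (hmono K) (hbmono K)]
      have h2K : (0 : ℝ) < 2 ^ K := by positivity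
      have h6 : ENNReal.ofReal (1 / 64) ≤ ∑ l ∈ Finset.Ico (b K) (b (K + 1)), f l := by
        have hcard : (2 : ℝ) ^ K / (16 * v) ≤ ((Finset.Ico (b K) (b (K + 1))).card : ℝ) := by
          rw [Nat.card_Ico, Nat.cast_sub (hbmono K)]
          have h7 : (b K : ℝ) ≤ 2 ^ K / (8 * v) := Nat.floor_le (by positivity)
          have h8 : (2 : ℝ) ^ (K + 1) / (8 * v) < b (K + 1) + 1 := Nat.lt_floor_add_one _
          have h9 : (2 : ℝ) ^ (K + 1) / (8 * v) = 2 ^ K / (8 * v) + 2 ^ K / (8 * v) := by
            rw [pow_succ]
            ring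
          have h10 : (2 : ℝ) ^ K / (8 * v) = 2 ^ K / (16 * v) + 2 ^ K / (16 * v) := by
            field_simp
            ring
          have h11 : 1 ≤ (2 : ℝ) ^ K / (16 * v) := by
            rw [le_div_iff₀ (by positivity)]
            have : (1 : ℝ) ≤ 2 ^ K := one_le_pow₀ (by norm_num)
            linarith
          linarith
        calc ENNReal.ofReal (1 / 64)
            ≤ ENNReal.ofReal (((Finset.Ico (b K) (b (K + 1))).card : ℝ) *
                ((1 / 2) ^ K * v / 4)) := by
              apply ENNReal.ofReal_le_ofReal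
              have h7 : (0 : ℝ) ≤ (1 / 2) ^ K * v / 4 := by positivity
              have h8 := mul_le_mul_of_nonneg_right hcard h7
              refine le_trans (le_of_eq ?_) h8
              rw [one_div_pow]
              field_simp
              norm_num
          _ = ∑ _l ∈ Finset.Ico (b K) (b (K + 1)), ENNReal.ofReal ((1 / 2) ^ K * v / 4) := by
              rw [Finset.sum_const, nsmul_eq_mul, ENNReal.ofReal_mul (Nat.cast_nonneg _),
                ENNReal.ofReal_natCast]
          _ ≤ ∑ l ∈ Finset.Ico (b K) (b (K + 1)), f l := by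
              apply Finset.sum_le_sum
              intro l hl
              rw [Finset.mem_Ico] at hl
              apply hterm K (by omega) l
              · rw [hVr]
                have h7 : (2 : ℝ) ^ K / (8 * v) < b K + 1 := Nat.lt_floor_add_one _
                have h8 : (b K : ℝ) ≤ l := by exact_mod_cast hl.1
                have h9 : (2 : ℝ) ^ K / (8 * v) ≤ l + 1 := by linarith
                rw [div_le_iff₀ (by positivity)] at h9
                have h10 : ((l : ℝ) + 1) * ((1 / 2) ^ K * v) =
                    ((l : ℝ) + 1) * (8 * v) / (8 * 2 ^ K) := by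
                  rw [one_div_pow]
                  field_simp
                rw [h10, div_le_div_iff₀ (by norm_num) (by positivity)]
                linarith
              · rw [hVr]
                have h7 : (b (K + 1) : ℝ) ≤ 2 ^ (K + 1) / (8 * v) := Nat.floor_le (by positivity)
                have h8 : ((l : ℝ) + 1) ≤ b (K + 1) := by exact_mod_cast hl.2
                have h9 : ((l : ℝ) + 1) ≤ 2 ^ (K + 1) / (8 * v) := h8.trans h7
                rw [le_div_iff₀ (by positivity), pow_succ] at h9
                have h10 : ((l : ℝ) + 1) * ((1 / 2) ^ K * v) =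
                    ((l : ℝ) + 1) * (8 * v) / (8 * 2 ^ K) := by
                  rw [one_div_pow]
                  field_simp
                rw [h10, div_le_div_iff₀ (by positivity) (by norm_num)]
                linarith
      have h7 : ENNReal.ofReal (((K + 1 : ℕ) : ℝ) / 64) =
          ENNReal.ofReal (K / 64) + ENNReal.ofReal (1 / 64) := by
        rw [← ENNReal.ofReal_add (by positivity) (by norm_num)]
        congr 1
        push_cast
        ring
      rw [h7]
      exact add_le_add h5 h6
  have h5 := hind 128 le_rfl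
  have h6 : ENNReal.ofReal (((128 : ℕ) : ℝ) / 64) = 2 := by
    norm_num
  rw [h6] at h5
  exact h5.trans (ENNReal.sum_le_tsum _)

end Q179.NT
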