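import Pool.Agent.Q287.NT.Stm

set_option autoImplicit false

open MeasureTheory
open scoped ENNReal

namespace Q179.NT

open Q287.NT

section general

variable {Ω : Type*} [MeasurableSpace Ω]

lemma meas_bind {N : Ω → ℕ} (hN : Measurable N) {p : ℕ → Ω → Prop}
    (hp : ∀ n, MeasurableSet {x | p n x}) : MeasurableSet {x | p (N x) x} := by
  have h : {x | p (N x) x} = ⋃ n, (N ⁻¹' {n}) ∩ {x | p n x} := by
    ext x
    simp
  rw [h]
  exact MeasurableSet.iUnion fun n => (hN (measurableSet_singleton n)).inter (hp n)

lemma meas_comp {β : Type*} [MeasurableSpace β] {N : Ω → ℕ} (hN : Measurable N)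
    {F : ℕ → Ω → β} (hF : ∀ n, Measurable (F n)) : Measurable (fun x => F (N x) x) := by
  intro S hS
  exact meas_bind hN (p := fun n x => F n x ∈ S) fun n => hF n hS

lemma meas_eq {f g : Ω → ℕ} (hf : Measurable f) (hg : Measurable g) :
    MeasurableSet {x | f x = g x} := measurableSet_eq_fun hf hg

lemma meas_sInf {A : Ω → Set ℕ} (hA : ∀ j, MeasurableSet {x | j ∈ A x}) :
    Measurable (fun x => sInf (A x)) := by
  apply measurable_to_countable'
  intro j
  have h : (fun x => sInf (A x)) ⁻¹' {j} =
      {x | j ∈ A x ∧ ∀ k, k < j → k ∉ A x} ∪ {x | j = 0 ∧ ∀ k, k ∉ A x} := by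
    ext x
    simp only [Set.mem_preimage, Set.mem_singleton_iff, Set.mem_union, Set.mem_ofPred_eq]
    constructor
    · intro h
      by_cases hne : (A x).Nonempty
      · left
        refine ⟨h ▸ Nat.sInf_mem hne, fun k hk hkA => ?_⟩
        have := Nat.sInf_le hkA
        omega
      · right
        rw [Set.not_nonempty_iff_eq_empty] at hne
        rw [hne] at h ⊢
        rw [Nat.sInf_empty] at h
        exact ⟨h.symm, fun k => Set.notMem_empty k⟩
    · rintro (⟨h1, h2⟩ | ⟨h1, h2⟩)
      · apply le_antisymm (Nat.sInf_le h1)
        by_contra h3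
        exact h2 _ (not_le.1 h3) (Nat.sInf_mem ⟨j, h1⟩)
      · have : A x = ∅ := Set.eq_empty_of_forall_notMem h2
        rw [this, Nat.sInf_empty, h1]
  rw [h]
  apply MeasurableSet.union
  · apply (hA j).inter
    have : {x | ∀ k, k < j → k ∉ A x} = ⋂ k, ⋂ (_ : k < j), {x | k ∈ A x}ᶜ := by
      ext x
      simp
    change MeasurableSet {x | ∀ k, k < j → k ∉ A x}
    rw [this]
    exact MeasurableSet.iInter fun k => MeasurableSet.iInter fun _ => (hA k).compl
  · have h3 : {x | ∀ k, k ∉ A x} = ⋂ k, {x | k ∈ A x}ᶜ := by
      ext x
      simp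
    have h4 : MeasurableSet {x | ∀ k, k ∉ A x} := by
      rw [h3]
      exact MeasurableSet.iInter fun k => (hA k).compl
    exact (MeasurableSet.const (j = 0)).inter h4

lemma meas_forall {p : ℕ → Ω → Prop} (hp : ∀ k, MeasurableSet {x | p k x}) :
    MeasurableSet {x | ∀ k, p k x} := by
  have : {x | ∀ k, p k x} = ⋂ k, {x | p k x} := by
    ext x
    simp
  rw [this]
  exact MeasurableSet.iInter hp

lemma meas_exists {p : ℕ → Ω → Prop} (hp : ∀ k, MeasurableSet {x | p k x}) :
    MeasurableSet {x | ∃ k, p k x} := by
  have : {x | ∃ k, p k x} = ⋃ k, {x | p k x} := by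
    ext x
    simp
  rw [this]
  exact MeasurableSet.iUnion hp

lemma meas_imp {q : Prop} {p : Ω → Prop} (hp : MeasurableSet {x | p x}) :
    MeasurableSet {x | q → p x} := by
  by_cases hq : q
  · simpa [hq] using hp
  · simp [hq]

lemma meas_and {p q : Ω → Prop} (hp : MeasurableSet {x | p x}) (hq : MeasurableSet {x | q x}) :
    MeasurableSet {x | p x ∧ q x} := hp.inter hq

lemma meas_or {p q : Ω → Prop} (hp : MeasurableSet {x | p x}) (hq : MeasurableSet {x | q x}) :
    MeasurableSet {x | p x ∨ q x} := hp.union hq

lemma meas_not {p : Ω → Prop} (hp : MeasurableSet {x | p x}) :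
    MeasurableSet {x | ¬ p x} := hp.compl

end general

variable {d : ℕ}

lemma meas_ev (i : ℕ) : Measurable (fun x : ℕ → Tor d => x i) := measurable_pi_apply i

lemma meas_parent (i : ℕ) : Measurable (fun x : ℕ → Tor d => parent x i) := by
  unfold parent
  apply meas_sInf
  intro j
  apply meas_and (MeasurableSet.const _)
  apply meas_forall
  intro k
  apply meas_imp
  exact measurableSet_le (measurable_td (meas_ev i) (meas_ev j))
    (measurable_td (meas_ev i) (meas_ev k))

lemma meas_iter (k v : ℕ) : Measurable (fun x : ℕ → Tor d => (parent x)^[k] v) := by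
  induction k with
  | zero => exact measurable_const
  | succ k ih =>
    simp only [Function.iterate_succ_apply']
    exact meas_comp ih (F := fun n x => parent x n) meas_parent

lemma meas_Rp (t : ℕ) : Measurable (fun x : ℕ → Tor d => Rp x t) := by
  unfold Rp
  exact meas_comp (meas_parent t) (F := fun n x => td (x t) (x n))
    fun n => measurable_td (meas_ev t) (meas_ev n)

lemma meas_DC (u : ℕ) : MeasurableSet {x : ℕ → Tor d | DC x u} := by
  unfold DC
  apply meas_and (MeasurableSet.const _)
  apply meas_exists
  intro q
  apply meas_and (MeasurableSet.const _)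
  apply meas_and
  · apply meas_or
    · apply meas_and
      · exact measurableSet_le measurable_const (meas_parent u)
      · exact measurableSet_eq_fun measurable_const
          (meas_comp (meas_parent u) (F := fun n x => parent x n) meas_parent)
    · apply meas_and (MeasurableSet.const _)
      exact measurableSet_eq_fun (meas_parent q) (meas_parent u)
  · exact measurableSet_lt (measurable_td (meas_ev u) (meas_ev q))
      (meas_comp (meas_parent u) (F := fun n x => td (x n) (x q))
        fun n => measurable_td (meas_ev n) (meas_ev q))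

lemma meas_UN (v : ℕ) : MeasurableSet {x : ℕ → Tor d | UN x v} := by
  unfold UN
  apply meas_forall
  intro k
  apply meas_not
  exact meas_bind (meas_iter k v) (p := fun n x => DC x n) meas_DC

lemma meas_V : Measurable (V d) := Monotone.measurable fun _ _ h => V_mono h

lemma meas_Far (x : ℕ → Tor d) (t : ℕ) : MeasurableSet (Far x t) := by
  unfold Far
  apply meas_and
  · exact measurableSet_le measurable_const (measurable_td measurable_id measurable_const)
  · apply meas_forall
    intro l
    apply meas_imp
    exact measurableSet_le (measurable_td measurable_id measurable_const)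
      (measurable_td measurable_id measurable_const)

lemma meas_Far_prod (t : ℕ) :
    MeasurableSet {p : (ℕ → Tor d) × Tor d | p.2 ∈ Far p.1 t} := by
  unfold Far
  change MeasurableSet {p : (ℕ → Tor d) × Tor d | 3 * Rp p.1 t ≤ td p.2 (p.1 t) ∧
    ∀ l, l < t → td p.2 (p.1 t) ≤ td p.2 (p.1 l)}
  have hev : ∀ i, Measurable (fun p : (ℕ → Tor d) × Tor d => p.1 i) := fun i =>
    (meas_ev i).comp measurable_fst
  apply meas_and
  · exact measurableSet_le (((meas_Rp t).comp measurable_fst).const_mul 3)
      (measurable_td measurable_snd (hev t))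
  · apply meas_forall
    intro l
    apply meas_imp
    exact measurableSet_le (measurable_td measurable_snd (hev t))
      (measurable_td measurable_snd (hev l))

lemma meas_vol_Far (t : ℕ) : Measurable (fun x : ℕ → Tor d => volume (Far x t)) :=
  measurable_measure_prodMk_left (meas_Far_prod t)

lemma meas_Good (t : ℕ) : MeasurableSet {x : ℕ → Tor d | Good x t} := by
  unfold Good
  apply meas_and (MeasurableSet.const _)
  apply meas_and (meas_UN t)
  apply meas_and
  · exact measurableSet_lt measurable_const (meas_Rp t)
  apply meas_and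
  · exact measurableSet_le (meas_Rp t) measurable_const
  · exact measurableSet_le (meas_vol_Far t)
      ((meas_V.comp (meas_Rp t)).div_const _).ennreal_ofReal

lemma meas_Step (t j : ℕ) : MeasurableSet {x : ℕ → Tor d | Step x t j} := by
  unfold Step
  apply meas_and (MeasurableSet.const _)
  apply meas_and
  · exact measurableSet_eq_fun (meas_parent j) measurable_const
  apply meas_and
  · exact measurableSet_le ((meas_Rp t).div_const _) (meas_Rp j)
  apply meas_and
  · exact measurableSet_le ((meas_V.comp (meas_Rp j)).const_mul _) measurable_const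
  · exact meas_Good j

lemma meas_Gen (t0 : ℕ) (r0 : ℝ) (m : ℕ) : ∀ j, MeasurableSet {x : ℕ → Tor d | Gen x t0 r0 m j} := by
  induction m with
  | zero =>
    intro j
    simp only [Gen]
    apply meas_and (MeasurableSet.const _)
    apply meas_and (meas_Good t0)
    exact measurableSet_le measurable_const (meas_Rp t0)
  | succ m ih =>
    intro j
    simp only [Gen]
    apply meas_exists
    intro t
    apply meas_and (MeasurableSet.const _)
    exact meas_and (ih t) (meas_Step t j)

theorem t_MEAS : S_MEAS := fun _ => ⟨meas_Far, meas_Step, meas_Gen⟩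

lemma meas_Adj (n a b : ℕ) : MeasurableSet {x : ℕ → Tor d | Adj x n a b} := by
  unfold Adj
  apply meas_and (MeasurableSet.const _)
  apply meas_and (MeasurableSet.const _)
  apply meas_or
  · apply meas_and (MeasurableSet.const _)
    exact measurableSet_eq_fun (meas_parent a) measurable_const
  · apply meas_and (MeasurableSet.const _)
    exact measurableSet_eq_fun (meas_parent b) measurable_const

lemma meas_CovBy (n v p q : ℕ) : MeasurableSet {x : ℕ → Tor d | Q287.NT.CovBy x n v p q} := by
  unfold Q287.NT.CovBy Forb
  apply meas_and (meas_Adj n p q)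
  apply meas_and (meas_Adj n v p)
  apply meas_and (MeasurableSet.const _)
  simp only [Set.mem_ofPred_eq]
  apply meas_and
  · exact measurableSet_lt (measurable_td (meas_ev v) (meas_ev p))
      (measurable_td (meas_ev p) (meas_ev q))
  · exact measurableSet_lt (measurable_td (meas_ev v) (meas_ev q))
      (measurable_td (meas_ev p) (meas_ev q))

lemma meas_Cov (n v : ℕ) : MeasurableSet {x : ℕ → Tor d | Cov x n v} := by
  unfold Cov
  apply meas_exists
  intro u
  apply meas_exists
  intro p
  apply meas_exists
  intro q
  apply meas_and (meas_CovBy n u p q)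
  apply meas_exists
  intro k
  exact measurableSet_eq_fun (meas_iter k v) measurable_const

theorem t_MEASU : S_MEASU := by
  intro d n
  classical
  have h : ∀ x : ℕ → Tor d, ((Unc x n).ncard : ℝ) =
      ∑ v ∈ Finset.range n, Set.indicator {x : ℕ → Tor d | ¬ Cov x n v} (fun _ => (1 : ℝ)) x := by
    intro x
    have h1 : Unc x n = (((Finset.range n).filter fun v => ¬ Cov x n v : Finset ℕ) : Set ℕ) := by
      ext v
      simp [Unc]
    rw [h1, Set.ncard_coe_finset, Finset.card_filter]
    push_cast
    apply Finset.sum_congr rfl
    intro v _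
    simp only [Set.indicator_apply, Set.mem_ofPred_eq]
  simp only [h]
  apply Finset.measurable_sum
  intro v _
  exact measurable_const.indicator (meas_not (meas_Cov n v))

end Q179.NT
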